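import Mathlib

/-!
Unit fraction equation `∑ 1/x_i + 1/∏ x_i = 1` with a prescribed smallest denominator.
-/

namespace Pool.Agent.Results.MP_57c6f5_nt.FirstTermFour

/-- `IsSolution l`: the list `l = [x₁, …, x_s]` satisfies `1 < x₁ < ⋯ < x_s` and
`∑ 1/x_i + 1/(x₁ ⋯ x_s) = 1`. -/
def IsSolution (l : List ℕ) : Prop :=
  l.Pairwise (· < ·) ∧ (∀ x ∈ l, 1 < x) ∧
    (l.map (fun x : ℕ => (1 : ℚ) / (x : ℚ))).sum + 1 / (l.prod : ℚ) = 1

/-- There is a solution of length `s` whose first (smallest) term is `a`. -/
def HasSolution (a s : ℕ) : Prop :=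
  ∃ l : List ℕ, l.length = s ∧ l.head? = some a ∧ IsSolution l

/-- Checks a chain of numerators: from the state `N / P` with last denominator `q`,
each listed `N'` gives the next denominator `(P + N') / N`. The final numerator must be `1`. -/
def chk : ℕ → ℕ → ℕ → List ℕ → Bool
  | N, _, _, [] => Nat.beq N 1
  | N, P, q, M :: r =>
      (Nat.beq (((P + M) / N) * N) (P + M)) && (Nat.ble (q + 1) ((P + M) / N)) &&
        chk M (P * ((P + M) / N)) ((P + M) / N) r

theorem chk_sound : ∀ (r : List ℕ) (N P q : ℕ), 0 < P → 1 < q → chk N P q r = true →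
    ∃ l : List ℕ, l.length = r.length ∧ (q :: l).Pairwise (· < ·) ∧
      (N : ℚ) / P = (l.map (fun x : ℕ => (1 : ℚ) / (x : ℚ))).sum + 1 / ((P : ℚ) * (l.prod : ℚ)) := by
  intro r
  induction r with
  | nil =>
    intro N P q hP hq h
    refine ⟨[], rfl, by simp, ?_⟩
    have hN : N = 1 := by
      simpa [chk] using h
    subst hN
    simp
  | cons M r ih =>
    intro N P q hP hq h
    simp only [chk, Bool.and_eq_true, Nat.ble_eq] at h
    obtain ⟨⟨h1, h2⟩, h3⟩ := h
    have h1 := Nat.eq_of_beq_eq_true h1
    set x := (P + M) / N with hx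
    have hxq : q < x := h2
    have hx0 : 0 < x := by omega
    obtain ⟨l, hl1, hl2, hl3⟩ := ih M (P * x) x (Nat.mul_pos hP hx0) (by omega) h3
    refine ⟨x :: l, by simp [hl1], ?_, ?_⟩
    · rw [List.pairwise_cons]
      refine ⟨?_, hl2⟩
      intro y hy
      rcases List.mem_cons.1 hy with rfl | hy
      · exact hxq
      · exact lt_trans hxq ((List.pairwise_cons.1 hl2).1 y hy)
    · have hPq : (P : ℚ) ≠ 0 := by exact_mod_cast hP.ne'
      have hxQ : (x : ℚ) ≠ 0 := by exact_mod_cast hx0.ne'
      have e1 : (x : ℚ) * N = P + M := by exact_mod_cast h1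
      have e2 : (N : ℚ) / P = 1 / x + M / ((P * x : ℕ) : ℚ) := by
        push_cast
        field_simp
        linarith
      rw [e2, hl3]
      simp only [List.map_cons, List.sum_cons, List.prod_cons]
      push_cast
      rw [add_assoc, mul_assoc]

/-- A checked chain starting from `(a-1)/a` gives a solution with first term `a`. -/
theorem hasSolution_of_chk (a : ℕ) (ha : 1 < a) (r : List ℕ) (h : chk (a - 1) a a r = true) :
    HasSolution a (r.length + 1) := by
  obtain ⟨l, h1, h2, h3⟩ := chk_sound r (a - 1) a a (by omega) ha h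
  refine ⟨a :: l, by simp [h1], rfl, h2, ?_, ?_⟩
  · intro x hx
    rcases List.mem_cons.1 hx with rfl | hx
    · exact ha
    · exact lt_trans ha ((List.pairwise_cons.1 h2).1 x hx)
  · have ha0 : (a : ℚ) ≠ 0 := by
      have : a ≠ 0 := by omega
      exact_mod_cast this
    have e : ((a - 1 : ℕ) : ℚ) = a - 1 := by
      rw [Nat.cast_sub (by omega)]; simp
    rw [e] at h3
    simp only [List.map_cons, List.sum_cons, List.prod_cons]
    rw [Nat.cast_mul, add_assoc, ← h3]
    field_simp
    ring

theorem le_prod_of_mem : ∀ (l : List ℕ), (∀ x ∈ l, 0 < x) → ∀ y ∈ l, y ≤ l.prod := by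
  intro l hl y hy
  exact Nat.le_of_dvd (Nat.pos_of_ne_zero (by
    intro h0
    rw [List.prod_eq_zero_iff] at h0
    exact absurd (hl 0 h0) (by simp))) (List.dvd_prod hy)

/-- A solution of length `s` extends to one of length `s + 1` with the same first term. -/
theorem HasSolution.succ {a s : ℕ} (h : HasSolution a s) : HasSolution a (s + 1) := by
  obtain ⟨l, h1, h2, h3, h4, h5⟩ := h
  have hne : l ≠ [] := by rintro rfl; simp at h2
  have hpos : 0 < l.prod := by
    obtain ⟨y, hy⟩ := List.exists_mem_of_ne_nil l hne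
    exact lt_of_lt_of_le (lt_trans Nat.zero_lt_one (h4 y hy))
      (le_prod_of_mem l (fun x hx => lt_trans Nat.zero_lt_one (h4 x hx)) y hy)
  have hge : 1 < l.prod := by
    obtain ⟨y, hy⟩ := List.exists_mem_of_ne_nil l hne
    exact lt_of_lt_of_le (h4 y hy)
      (le_prod_of_mem l (fun x hx => lt_trans Nat.zero_lt_one (h4 x hx)) y hy)
  refine ⟨l ++ [l.prod + 1], by simp [h1], ?_, ?_, ?_, ?_⟩
  · cases l with
    | nil => exact absurd rfl hne
    | cons b t => simpa using h2
  · rw [List.pairwise_append]
    refine ⟨h3, by simp, ?_⟩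
    intro x hx y hy
    have hy' : y = l.prod + 1 := by simpa using hy
    have := le_prod_of_mem l (fun x hx => lt_trans Nat.zero_lt_one (h4 x hx)) x hx
    omega
  · intro x hx
    rcases List.mem_append.1 hx with hx | hx
    · exact h4 x hx
    · have : x = l.prod + 1 := by simpa using hx
      omega
  · have hP : (l.prod : ℚ) ≠ 0 := by exact_mod_cast hpos.ne'
    have hP1 : ((l.prod : ℚ) + 1) ≠ 0 := by positivity
    simp only [List.map_append, List.sum_append, List.prod_append, List.map_cons, List.map_nil,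
      List.sum_cons, List.sum_nil, List.prod_cons, List.prod_nil, mul_one, add_zero]
    rw [Nat.cast_mul, Nat.cast_add, Nat.cast_one]
    have e : 1 / ((l.prod : ℚ) + 1) + 1 / ((l.prod : ℚ) * ((l.prod : ℚ) + 1)) = 1 / (l.prod : ℚ) := by
      field_simp
    rw [add_assoc, e]
    exact h5

theorem HasSolution.of_le {a s t : ℕ} (h : HasSolution a s) (hst : s ≤ t) : HasSolution a t := by
  induction hst with
  | refl => exact h
  | step _ ih => exact ih.succ

/-- A 25-term solution starting `4, 5, 7, 9, 11, 13, 17, 31, 37, 223, 347, 367, 81359077, …`,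
given by its chain of numerators. -/
theorem four : HasSolution 4 25 :=
  hasSolution_of_chk 4 (by norm_num) [11, 57, 373, 2843, 23099, 212503, 3524533, 35452861,
    4392658183, 740779839641, 1226346827, 174477539, 256141, 29466225571, 775177037, 56179,
    411439999, 9679, 113291869, 83, 67, 4133, 2747, 1]
    (by decide +kernel)

/-- For every `s ≥ 25` the equation has a solution of length `s` with first term `4`. -/
theorem result : ∀ s ≥ 25, HasSolution 4 s := fun _ hs => four.of_le hs

end Pool.Agent.Results.MP_57c6f5_nt.FirstTermFour
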